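import Mathlib

/-!
The intermediate form of the strong law of large numbers for random convex sets fails in every
infinite-dimensional Hilbert space, even if the common expectation is compact.

Construction.  Split the indices into blocks `[2^j, 2^(j+1))` and put `M = K j + 1`, where
`K j = 2^j * 4^(j+2)`.  Let `e (j, σ)` be orthonormal vectors indexed by the maps `σ` from the
`2^j` places of block `j` to `{0, ..., M-1}`.  For `i < M` let `A j i` be the convex hull of `0` and the
vectors `e (j, σ)` with `i` in the range of `σ`, and let `U j` be the average of the sets `A j i`.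
Every vector of `U j` has norm at most `sqrt (2^j / M) ≤ 2^-(j+2)`.  For `n` in block `j` the random set
is `A j (ω n) + ∑_{i ≠ j} U i` with independent uniform `ω n`, with expectation `∑ i, U i`, which is
compact.  But for *every* outcome the vector `e (j, ω restricted to block j)` lies in all the random
sets of block `j`, so half of it lies in the average at time `2^(j+1)`, and its distance from
the expectation is at least `1/4`.
-/

open MeasureTheory ProbabilityTheory Set Metric Filter Topology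
open scoped Pointwise

namespace Pool.Agent.Results.MP_3b082f_pr.HilbertCounterexample

section definitions

variable {X : Type*} [NormedAddCommGroup X] [NormedSpace ℝ X]

/-- `X` is B-convex: for some `n` and `ε > 0` there is no `(1+ε)`-isomorphic copy of `ℓ₁ⁿ`
in `X`. -/
def IsBConvex (X : Type*) [NormedAddCommGroup X] [NormedSpace ℝ X] : Prop :=
  ∃ (n : ℕ) (ε : ℝ), 0 < ε ∧ ¬ ∃ T : PiLp 1 (fun _ : Fin n => ℝ) →ₗ[ℝ] X,
    ∀ a, ‖a‖ ≤ ‖T a‖ ∧ ‖T a‖ ≤ (1 + ε) * ‖a‖

/-- the space `Z(X)` of bounded continuous functions on the unit sphere of the dual of `X` -/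
abbrev Z (X : Type*) [NormedAddCommGroup X] [NormedSpace ℝ X] :=
  BoundedContinuousFunction (sphere (0 : StrongDual ℝ X) 1) ℝ

/-- membership in `BC(X)`: nonempty, convex and bounded -/
structure IsBC (A : Set X) : Prop where
  /-- nonempty -/
  nonempty : A.Nonempty
  /-- convex -/
  convex : Convex ℝ A
  /-- bounded -/
  bounded : Bornology.IsBounded A

lemma bddAbove_image {A : Set X} (hA : Bornology.IsBounded A) (f : StrongDual ℝ X) :
    BddAbove (f '' A) := by
  obtain ⟨C, hC⟩ := hA.exists_norm_le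
  refine ⟨‖f‖ * C, ?_⟩
  rintro _ ⟨a, ha, rfl⟩
  calc f a ≤ |f a| := le_abs_self _
    _ = ‖f a‖ := (Real.norm_eq_abs _).symm
    _ ≤ ‖f‖ * ‖a‖ := f.le_opNorm a
    _ ≤ ‖f‖ * C := mul_le_mul_of_nonneg_left (hC a ha) (norm_nonneg _)

lemma sSup_diff_le {A : Set X} (hn : A.Nonempty) {C : ℝ} (hC : ∀ a ∈ A, ‖a‖ ≤ C)
    (hA : Bornology.IsBounded A) (f g : StrongDual ℝ X) :
    sSup (f '' A) - sSup (g '' A) ≤ C * ‖f - g‖ := by
  have : sSup (f '' A) ≤ sSup (g '' A) + C * ‖f - g‖ := by
    refine csSup_le (hn.image _) ?_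
    rintro _ ⟨a, ha, rfl⟩
    have h1 : g a ≤ sSup (g '' A) := le_csSup (bddAbove_image hA g) ⟨a, ha, rfl⟩
    have h2 : f a - g a ≤ C * ‖f - g‖ := by
      calc f a - g a = (f - g) a := rfl
        _ ≤ |(f - g) a| := le_abs_self _
        _ = ‖(f - g) a‖ := (Real.norm_eq_abs _).symm
        _ ≤ ‖f - g‖ * ‖a‖ := (f - g).le_opNorm a
        _ ≤ ‖f - g‖ * C := mul_le_mul_of_nonneg_left (hC a ha) (norm_nonneg _)
        _ = C * ‖f - g‖ := mul_comm _ _
    linarith
  linarith

lemma support_continuous {A : Set X} (hn : A.Nonempty) (hA : Bornology.IsBounded A) :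
    Continuous (fun f : sphere (0 : StrongDual ℝ X) 1 => sSup ((f : StrongDual ℝ X) '' A)) := by
  obtain ⟨C, hC⟩ := hA.exists_norm_le
  have hC0 : 0 ≤ C := by
    obtain ⟨a, ha⟩ := hn
    exact (norm_nonneg a).trans (hC a ha)
  refine LipschitzWith.continuous (K := ⟨C, hC0⟩) (LipschitzWith.of_dist_le_mul fun f g => ?_)
  rw [Real.dist_eq, abs_le]
  have h1 := sSup_diff_le hn hC hA (f : StrongDual ℝ X) g
  have h2 := sSup_diff_le hn hC hA (g : StrongDual ℝ X) f
  rw [norm_sub_rev] at h2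
  have h3 : dist f g = ‖(f : StrongDual ℝ X) - g‖ := by rw [Subtype.dist_eq, dist_eq_norm]
  rw [h3]
  change -(C * ‖(f : StrongDual ℝ X) - g‖) ≤ _ ∧ _ ≤ C * ‖(f : StrongDual ℝ X) - g‖
  constructor <;> linarith

lemma support_bounded {A : Set X} (hn : A.Nonempty) (hA : Bornology.IsBounded A) :
    ∃ C, ∀ f g : sphere (0 : StrongDual ℝ X) 1,
      dist (sSup ((f : StrongDual ℝ X) '' A)) (sSup ((g : StrongDual ℝ X) '' A)) ≤ C := by
  obtain ⟨C, hC⟩ := hA.exists_norm_le
  have hC0 : 0 ≤ C := by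
    obtain ⟨a, ha⟩ := hn
    exact (norm_nonneg a).trans (hC a ha)
  refine ⟨C * 2, fun f g => ?_⟩
  have h1 := sSup_diff_le hn hC hA (f : StrongDual ℝ X) g
  have h2 := sSup_diff_le hn hC hA (g : StrongDual ℝ X) f
  rw [norm_sub_rev] at h2
  have h3 : ‖(f : StrongDual ℝ X) - g‖ ≤ 2 := by
    have hf : ‖(f : StrongDual ℝ X)‖ = 1 := by simpa using f.2
    have hg : ‖(g : StrongDual ℝ X)‖ = 1 := by simpa using g.2
    calc ‖(f : StrongDual ℝ X) - g‖ ≤ ‖(f : StrongDual ℝ X)‖ + ‖(g : StrongDual ℝ X)‖ :=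
          norm_sub_le _ _
      _ = 2 := by rw [hf, hg]; norm_num
  have h4 : C * ‖(f : StrongDual ℝ X) - g‖ ≤ C * 2 := mul_le_mul_of_nonneg_left h3 hC0
  rw [Real.dist_eq, abs_le]
  constructor <;> linarith

open Classical in
/-- The Radstrom embedding `R(A)(x*) = sup_{a ∈ A} x*(a)`, `x*` in the unit sphere of the dual, for
nonempty bounded `A` (junk value `0` otherwise). -/
noncomputable def radstrom (A : Set X) : Z X :=
  if h : A.Nonempty ∧ Bornology.IsBounded A then
    { toFun := fun f => sSup ((f : StrongDual ℝ X) '' A)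
      continuous_toFun := support_continuous h.1 h.2
      map_bounded' := support_bounded h.1 h.2 }
  else 0

/-- A random set: a map into `BC(X)` whose composition with the Radstrom embedding is Borel
measurable. -/
structure IsRandomSet {Ω : Type*} [MeasurableSpace Ω] (Ψ : Ω → Set X) : Prop where
  /-- all values are nonempty, convex and bounded -/
  isBC : ∀ ω, IsBC (Ψ ω)
  /-- Borel measurability of `R ∘ Ψ` -/
  measurable : @Measurable Ω (Z X) _ (borel (Z X)) (fun ω => radstrom (Ψ ω))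

/-- `Ψ` has expectation `U`: `R ∘ Ψ` is Bochner integrable with integral `R(U)`. -/
def HasExpectation {Ω : Type*} [MeasurableSpace Ω] (μ : Measure Ω) (Ψ : Ω → Set X)
    (U : Set X) : Prop :=
  Integrable (fun ω => radstrom (Ψ ω)) μ ∧ ∫ ω, radstrom (Ψ ω) ∂μ = radstrom U

/-- Independence of random sets: independence of the random vectors `R ∘ Ψ n`. -/
def Independent {Ω : Type*} [MeasurableSpace Ω] (μ : Measure Ω) (Ψ : ℕ → Ω → Set X) : Prop :=
  iIndepFun (m := fun _ => borel (Z X)) (fun n ω => radstrom (Ψ n ω)) μ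

/-- the Minkowski average `(1/n) ∑_{i < n} Ψ i ω` -/
noncomputable def average {Ω : Type*} (Ψ : ℕ → Ω → Set X) (n : ℕ) (ω : Ω) : Set X :=
  ((n : ℝ)⁻¹) • ∑ i ∈ Finset.range n, Ψ i ω

lemma radstrom_apply {A : Set X} (hn : A.Nonempty) (hA : Bornology.IsBounded A)
    (f : sphere (0 : StrongDual ℝ X) 1) : radstrom A f = sSup ((f : StrongDual ℝ X) '' A) := by
  unfold radstrom
  rw [dif_pos ⟨hn, hA⟩]
  rfl

lemma radstrom_add {A B : Set X} (hA : IsBC A) (hB : IsBC B) :
    radstrom (A + B) = radstrom A + radstrom B := by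
  ext f
  rw [BoundedContinuousFunction.add_apply, radstrom_apply hA.1 hA.3, radstrom_apply hB.1 hB.3,
    radstrom_apply (hA.1.add hB.1) (hA.3.add hB.3), Set.image_add,
    csSup_add (hA.1.image _) (bddAbove_image hA.3 _) (hB.1.image _) (bddAbove_image hB.3 _)]

lemma radstrom_smul {A : Set X} (hA : IsBC A) {c : ℝ} (hc : 0 ≤ c) :
    radstrom (c • A) = c • radstrom A := by
  ext f
  rw [BoundedContinuousFunction.smul_apply, radstrom_apply hA.1 hA.3,
    radstrom_apply (hA.1.smul_set) (hA.3.smul₀ c), Set.image_smul_comm,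
    Real.sSup_smul_of_nonneg hc]
  intro a
  simp

lemma IsBC.add {A B : Set X} (hA : IsBC A) (hB : IsBC B) : IsBC (A + B) :=
  ⟨hA.1.add hB.1, hA.2.add hB.2, hA.3.add hB.3⟩

lemma IsBC.smul {A : Set X} (hA : IsBC A) (c : ℝ) : IsBC (c • A) :=
  ⟨hA.1.smul_set, hA.2.smul c, hA.3.smul₀ c⟩

lemma isBC_zero : IsBC (0 : Set X) := ⟨⟨0, rfl⟩, convex_singleton 0, Bornology.isBounded_singleton⟩

lemma isBC_sum {ι : Type*} (s : Finset ι) {A : ι → Set X} (hA : ∀ i ∈ s, IsBC (A i)) :
    IsBC (∑ i ∈ s, A i) := by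
  classical
  induction s using Finset.induction_on with
  | empty => simpa using isBC_zero
  | insert a s ha ih =>
    rw [Finset.sum_insert ha]
    exact (hA a (Finset.mem_insert_self _ _)).add
      (ih fun i hi => hA i (Finset.mem_insert_of_mem hi))

lemma radstrom_zero : radstrom (0 : Set X) = 0 := by
  ext f
  rw [radstrom_apply isBC_zero.1 isBC_zero.3]
  simp

lemma radstrom_sum {ι : Type*} (s : Finset ι) {A : ι → Set X} (hA : ∀ i ∈ s, IsBC (A i)) :
    radstrom (∑ i ∈ s, A i) = ∑ i ∈ s, radstrom (A i) := by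
  classical
  induction s using Finset.induction_on with
  | empty => simpa using radstrom_zero
  | insert a s ha ih =>
    rw [Finset.sum_insert ha, Finset.sum_insert ha,
      radstrom_add (hA a (Finset.mem_insert_self _ _))
        (isBC_sum s fun i hi => hA i (Finset.mem_insert_of_mem hi)),
      ih fun i hi => hA i (Finset.mem_insert_of_mem hi)]

end definitions

section blocks

variable {X : Type*} [NormedAddCommGroup X] [InnerProductSpace ℝ X]

/-- block sizes -/
def K (j : ℕ) : ℕ := 2 ^ j * 4 ^ (j + 2)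

abbrev Idx (j : ℕ) := Fin (2 ^ j) → Fin (K j + 1)

/-- admissible coefficients -/
def Lam (j i : ℕ) : Set (Idx j → ℝ) :=
  {l | (∀ σ, 0 ≤ l σ) ∧ (∀ σ, (∀ k, (σ k : ℕ) ≠ i) → l σ = 0) ∧ ∑ σ, l σ ≤ 1}

variable (e : (Σ j : ℕ, Idx j) → X)

/-- the linear map sending coefficients to vectors of block `j` -/
noncomputable def comb (j : ℕ) (l : Idx j → ℝ) : X := ∑ σ, l σ • e ⟨j, σ⟩

/-- `conv({0} ∪ {e_σ : i ∈ range σ})` -/
def A (j i : ℕ) : Set X := comb e j '' Lam j i

noncomputable def U (j : ℕ) : Set X :=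
  ((K j + 1 : ℕ) : ℝ)⁻¹ • ∑ i ∈ Finset.range (K j + 1), A e j i

lemma Lam_le_one {j i : ℕ} {l : Idx j → ℝ} (hl : l ∈ Lam j i) (σ : Idx j) : l σ ≤ 1 :=
  (Finset.single_le_sum (fun σ _ => hl.1 σ) (Finset.mem_univ σ)).trans hl.2.2

lemma zero_mem_Lam (j i : ℕ) : (0 : Idx j → ℝ) ∈ Lam j i :=
  ⟨fun _ => le_rfl, fun _ _ => rfl, by simp⟩

lemma Lam_convex (j i : ℕ) : Convex ℝ (Lam j i) := by
  rintro l ⟨h1, h2, h3⟩ m ⟨g1, g2, g3⟩ a b ha hb hab
  refine ⟨fun σ => ?_, fun σ hσ => ?_, ?_⟩
  · have := mul_nonneg ha (h1 σ)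
    have := mul_nonneg hb (g1 σ)
    simp only [Pi.add_apply, Pi.smul_apply, smul_eq_mul]
    linarith
  · simp [h2 σ hσ, g2 σ hσ]
  · simp only [Pi.add_apply, Pi.smul_apply, smul_eq_mul]
    rw [Finset.sum_add_distrib, ← Finset.mul_sum, ← Finset.mul_sum]
    calc a * ∑ σ, l σ + b * ∑ σ, m σ ≤ a * 1 + b * 1 :=
          add_le_add (mul_le_mul_of_nonneg_left h3 ha) (mul_le_mul_of_nonneg_left g3 hb)
      _ = 1 := by linarith

lemma Lam_compact (j i : ℕ) : IsCompact (Lam j i) := by
  refine IsCompact.of_isClosed_subset (isCompact_Icc (a := (0 : Idx j → ℝ)) (b := 1)) ?_ ?_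
  · have h1 : IsClosed {l : Idx j → ℝ | ∀ σ, 0 ≤ l σ} := by
      simp only [ofPred_forall]
      exact isClosed_iInter fun σ => isClosed_le continuous_const (continuous_apply σ)
    have h2 : IsClosed {l : Idx j → ℝ | ∀ σ, (∀ k, (σ k : ℕ) ≠ i) → l σ = 0} := by
      simp only [ofPred_forall]
      exact isClosed_iInter fun σ => isClosed_iInter fun _ =>
        isClosed_eq (continuous_apply σ) continuous_const
    have h3 : IsClosed {l : Idx j → ℝ | ∑ σ, l σ ≤ 1} :=
      isClosed_le (continuous_finset_sum _ fun σ _ => continuous_apply σ) continuous_const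
    have : Lam j i = {l : Idx j → ℝ | ∀ σ, 0 ≤ l σ} ∩
        ({l : Idx j → ℝ | ∀ σ, (∀ k, (σ k : ℕ) ≠ i) → l σ = 0} ∩ {l : Idx j → ℝ | ∑ σ, l σ ≤ 1}) := by
      ext l
      rfl
    rw [this]
    exact h1.inter (h2.inter h3)
  · intro l hl
    exact ⟨fun σ => hl.1 σ, fun σ => Lam_le_one hl σ⟩

noncomputable def combL (j : ℕ) : (Idx j → ℝ) →ₗ[ℝ] X where
  toFun := comb e j
  map_add' l m := by
    unfold comb
    rw [← Finset.sum_add_distrib]
    exact Finset.sum_congr rfl fun σ _ => by rw [Pi.add_apply, add_smul]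
  map_smul' c l := by
    unfold comb
    rw [RingHom.id_apply, Finset.smul_sum]
    exact Finset.sum_congr rfl fun σ _ => by rw [Pi.smul_apply, smul_eq_mul, mul_smul]

lemma comb_continuous (j : ℕ) : Continuous (comb e j) := by
  unfold comb
  exact continuous_finset_sum _ fun σ _ => (continuous_apply σ).smul continuous_const

lemma A_compact (j i : ℕ) : IsCompact (A e j i) := (Lam_compact j i).image (comb_continuous e j)

lemma A_convex (j i : ℕ) : Convex ℝ (A e j i) := (Lam_convex j i).linear_image (combL e j)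

lemma zero_mem_A (j i : ℕ) : (0 : X) ∈ A e j i := ⟨0, zero_mem_Lam j i, by simp [comb]⟩

lemma A_isBC (j i : ℕ) : IsBC (A e j i) :=
  ⟨⟨0, zero_mem_A e j i⟩, A_convex e j i, (A_compact e j i).isBounded⟩

lemma isCompact_sum {ι : Type*} (s : Finset ι) {B : ι → Set X} (hB : ∀ i ∈ s, IsCompact (B i)) :
    IsCompact (∑ i ∈ s, B i) := by
  classical
  induction s using Finset.induction_on with
  | empty => simpa using (isCompact_singleton (x := (0 : X)))
  | insert a s ha ih =>
    rw [Finset.sum_insert ha]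
    exact (hB a (Finset.mem_insert_self _ _)).add
      (ih fun i hi => hB i (Finset.mem_insert_of_mem hi))

lemma U_compact (j : ℕ) : IsCompact (U e j) :=
  (isCompact_sum _ fun i _ => A_compact e j i).smul _

lemma U_isBC (j : ℕ) : IsBC (U e j) := (isBC_sum _ fun i _ => A_isBC e j i).smul _

lemma zero_mem_U (j : ℕ) : (0 : X) ∈ U e j := by
  refine ⟨0, ?_, smul_zero _⟩
  rw [Set.mem_finsetSum]
  exact ⟨fun _ => 0, fun {i} _ => zero_mem_A e j i, by simp⟩

variable {e} (he : Orthonormal ℝ e)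

include he

lemma block_orthonormal (j : ℕ) : Orthonormal ℝ (fun σ : Idx j => e ⟨j, σ⟩) :=
  he.comp _ fun σ τ h => by simpa using h

lemma norm_comb_sq (j : ℕ) (l : Idx j → ℝ) : ‖comb e j l‖ ^ 2 = ∑ σ, l σ ^ 2 := by
  have h := (block_orthonormal he j).inner_sum l l Finset.univ
  have h2 : ‖comb e j l‖ ^ 2 = inner ℝ (comb e j l) (comb e j l) :=
    (real_inner_self_eq_norm_sq _).symm
  rw [h2]
  unfold comb
  rw [h]
  exact Finset.sum_congr rfl fun σ _ => by simp [sq]

lemma A_norm {j i : ℕ} {a : X} (ha : a ∈ A e j i) : ‖a‖ ≤ 1 := by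
  obtain ⟨l, hl, rfl⟩ := ha
  have h1 : ‖comb e j l‖ ^ 2 ≤ 1 := by
    rw [norm_comb_sq he]
    calc ∑ σ, l σ ^ 2 ≤ ∑ σ, l σ := by
          refine Finset.sum_le_sum fun σ _ => ?_
          have := hl.1 σ
          have := Lam_le_one hl σ
          nlinarith
      _ ≤ 1 := hl.2.2
  nlinarith [norm_nonneg (comb e j l)]

lemma U_norm {j : ℕ} {u : X} (hu : u ∈ U e j) : ‖u‖ ≤ (1 / 2) ^ (j + 2) := by
  obtain ⟨v, hv, rfl⟩ := hu
  rw [Set.mem_finsetSum] at hv
  obtain ⟨g, hg, rfl⟩ := hv
  choose! l hl hgl using fun i (hi : i ∈ Finset.range (K j + 1)) => hg hi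
  have h1 : ∑ i ∈ Finset.range (K j + 1), g i =
      comb e j (fun σ => ∑ i ∈ Finset.range (K j + 1), l i σ) := by
    rw [← Finset.sum_congr rfl hgl]
    unfold comb
    rw [Finset.sum_comm]
    exact Finset.sum_congr rfl fun σ _ => (Finset.sum_smul).symm
  have h2 : ∀ σ : Idx j, 0 ≤ ∑ i ∈ Finset.range (K j + 1), l i σ := fun σ =>
    Finset.sum_nonneg fun i hi => (hl i hi).1 σ
  have h3 : ∀ σ : Idx j, ∑ i ∈ Finset.range (K j + 1), l i σ ≤ 2 ^ j := by
    intro σ
    classical
    have h4 : ∑ i ∈ Finset.range (K j + 1), l i σ ≤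
        ∑ i ∈ Finset.range (K j + 1), if i ∈ Finset.univ.image (fun k => (σ k : ℕ)) then (1:ℝ) else 0 := by
      refine Finset.sum_le_sum fun i hi => ?_
      split_ifs with h
      · exact Lam_le_one (hl i hi) σ
      · refine le_of_eq ((hl i hi).2.1 σ fun k hk => h ?_)
        exact Finset.mem_image.2 ⟨k, Finset.mem_univ _, hk⟩
    refine h4.trans ?_
    rw [Finset.sum_ite_mem, Finset.sum_const, nsmul_eq_mul, mul_one]
    have h5 : (Finset.range (K j + 1) ∩ Finset.univ.image (fun k => (σ k : ℕ))).card ≤ 2 ^ j := by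
      refine (Finset.card_le_card Finset.inter_subset_right).trans (Finset.card_image_le.trans ?_)
      simp
    exact_mod_cast h5
  have h6 : ‖comb e j (fun σ => ∑ i ∈ Finset.range (K j + 1), l i σ)‖ ^ 2 ≤
      2 ^ j * ((K j + 1 : ℕ) : ℝ) := by
    rw [norm_comb_sq he]
    calc ∑ σ, (∑ i ∈ Finset.range (K j + 1), l i σ) ^ 2
        ≤ ∑ σ, 2 ^ j * ∑ i ∈ Finset.range (K j + 1), l i σ := by
          refine Finset.sum_le_sum fun σ _ => ?_
          rw [sq]
          exact mul_le_mul_of_nonneg_right (h3 σ) (h2 σ)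
      _ = 2 ^ j * ∑ i ∈ Finset.range (K j + 1), ∑ σ, l i σ := by
          rw [← Finset.mul_sum, Finset.sum_comm]
      _ ≤ 2 ^ j * ∑ i ∈ Finset.range (K j + 1), (1:ℝ) := by
          refine mul_le_mul_of_nonneg_left (Finset.sum_le_sum fun i hi => (hl i hi).2.2) (by positivity)
      _ = 2 ^ j * ((K j + 1 : ℕ) : ℝ) := by simp
  have hKpos : (0:ℝ) < ((K j + 1 : ℕ) : ℝ) := by positivity
  have h7 : ‖((K j + 1 : ℕ) : ℝ)⁻¹ • ∑ i ∈ Finset.range (K j + 1), g i‖ ^ 2 ≤
      ((1 / 2) ^ (j + 2)) ^ 2 := by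
    rw [h1, norm_smul, mul_pow, Real.norm_of_nonneg (inv_nonneg.2 hKpos.le)]
    calc (((K j + 1 : ℕ) : ℝ)⁻¹) ^ 2 * ‖comb e j (fun σ => ∑ i ∈ Finset.range (K j + 1), l i σ)‖ ^ 2
        ≤ (((K j + 1 : ℕ) : ℝ)⁻¹) ^ 2 * (2 ^ j * ((K j + 1 : ℕ) : ℝ)) :=
          mul_le_mul_of_nonneg_left h6 (by positivity)
      _ = 2 ^ j / ((K j + 1 : ℕ) : ℝ) := by field_simp
      _ ≤ 2 ^ j / (2 ^ j * 4 ^ (j + 2)) := by
          refine div_le_div_of_nonneg_left (by positivity) (by positivity) ?_
          have : (K j : ℝ) = 2 ^ j * 4 ^ (j + 2) := by unfold K; push_cast; ring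
          rw [← this]
          push_cast
          linarith
      _ = ((1 / 2) ^ (j + 2)) ^ 2 := by
          rw [← pow_mul, mul_comm (j + 2) 2, pow_mul]
          have : ((1:ℝ) / 2) ^ 2 = 1 / 4 := by norm_num
          rw [this, one_div_pow]
          field_simp
  exact le_of_sq_le_sq h7 (by positivity)

lemma inner_comb_ne {j i : ℕ} (hij : i ≠ j) (l : Idx j → ℝ) (τ : Idx i) :
    inner ℝ (e ⟨i, τ⟩) (comb e j l) = 0 := by
  unfold comb
  rw [inner_sum]
  refine Finset.sum_eq_zero fun σ _ => ?_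
  rw [inner_smul_right, he.2 (fun h => hij (congrArg Sigma.fst h)), mul_zero]

lemma inner_U_ne {j i : ℕ} (hij : i ≠ j) {u : X} (hu : u ∈ U e j) (τ : Idx i) :
    inner ℝ (e ⟨i, τ⟩) u = 0 := by
  obtain ⟨v, hv, rfl⟩ := hu
  rw [Set.mem_finsetSum] at hv
  obtain ⟨g, hg, rfl⟩ := hv
  rw [inner_smul_right, inner_sum]
  have : ∑ k ∈ Finset.range (K j + 1), inner ℝ (e ⟨i, τ⟩) (g k) = 0 := by
    refine Finset.sum_eq_zero fun k hk => ?_
    obtain ⟨l, -, hl⟩ := hg hk
    rw [← hl, inner_comb_ne he hij]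
  rw [this, mul_zero]

omit he

/-- the common mean `∑ⱼ Uⱼ` -/
def Utot (e : (Σ j : ℕ, Idx j) → X) : Set X := (fun u : ℕ → X => ∑' i, u i) '' univ.pi (U e)

/-- the mean without its `j`-th block -/
noncomputable def W (e : (Σ j : ℕ, Idx j) → X) (j : ℕ) : Set X :=
  (fun u : ℕ → X => ∑' i, if i = j then 0 else u i) '' univ.pi (U e)

lemma summable_bound : Summable (fun j : ℕ => ((1 : ℝ) / 2) ^ (j + 2)) :=
  (summable_nat_add_iff 2).2 (summable_geometric_of_lt_one (by norm_num) (by norm_num))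

variable [CompleteSpace X]

include he

lemma summable_of_mem {u : ℕ → X} (hu : u ∈ univ.pi (U e)) : Summable u :=
  Summable.of_norm_bounded summable_bound fun j => U_norm he (hu j (mem_univ _))

lemma ite_bound {u : ℕ → X} (hu : u ∈ univ.pi (U e)) (j i : ℕ) :
    ‖(if i = j then 0 else u i)‖ ≤ ((1 : ℝ) / 2) ^ (i + 2) := by
  split_ifs
  · rw [norm_zero]; positivity
  · exact U_norm he (hu i (mem_univ _))

lemma summable_ite {u : ℕ → X} (hu : u ∈ univ.pi (U e)) (j : ℕ) :
    Summable (fun i => if i = j then 0 else u i) :=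
  Summable.of_norm_bounded summable_bound fun i => ite_bound he hu j i

lemma pi_compact : IsCompact (univ.pi (U e)) := isCompact_univ_pi fun j => U_compact e j

lemma Utot_compact : IsCompact (Utot e) := by
  refine (pi_compact he).image_of_continuousOn ?_
  exact continuousOn_tsum (fun i => (continuous_apply i).continuousOn) summable_bound
    fun i u hu => U_norm he (hu i (mem_univ _))

lemma W_compact (j : ℕ) : IsCompact (W e j) := by
  refine (pi_compact he).image_of_continuousOn ?_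
  refine continuousOn_tsum (fun i => ?_) summable_bound fun i u hu => ite_bound he hu j i
  by_cases h : i = j
  · simp only [h, if_true]
    exact continuousOn_const
  · simp only [h, if_false]
    exact (continuous_apply i).continuousOn

lemma zero_mem_W (j : ℕ) : (0 : X) ∈ W e j :=
  ⟨0, fun i _ => zero_mem_U e i, by simp⟩

lemma zero_mem_Utot : (0 : X) ∈ Utot e :=
  ⟨0, fun i _ => zero_mem_U e i, by simp⟩

lemma pi_convex : Convex ℝ (univ.pi (U e)) := convex_pi fun i _ => (U_isBC e i).2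

lemma Utot_convex : Convex ℝ (Utot e) := by
  rintro _ ⟨u, hu, rfl⟩ _ ⟨v, hv, rfl⟩ a b ha hb hab
  refine ⟨a • u + b • v, pi_convex he hu hv ha hb hab, ?_⟩
  simp only [Pi.add_apply, Pi.smul_apply]
  rw [((summable_of_mem he hu).const_smul a).tsum_add ((summable_of_mem he hv).const_smul b),
    (summable_of_mem he hu).tsum_const_smul, (summable_of_mem he hv).tsum_const_smul]

lemma W_convex (j : ℕ) : Convex ℝ (W e j) := by
  rintro _ ⟨u, hu, rfl⟩ _ ⟨v, hv, rfl⟩ a b ha hb hab
  refine ⟨a • u + b • v, pi_convex he hu hv ha hb hab, ?_⟩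
  have h : (fun i => if i = j then (0 : X) else (a • u + b • v) i) =
      fun i => a • (if i = j then 0 else u i) + b • (if i = j then 0 else v i) := by
    funext i
    split_ifs <;> simp
  simp only [h]
  rw [((summable_ite he hu j).const_smul a).tsum_add ((summable_ite he hv j).const_smul b),
    (summable_ite he hu j).tsum_const_smul, (summable_ite he hv j).tsum_const_smul]

lemma Utot_isBC : IsBC (Utot e) := ⟨⟨0, zero_mem_Utot he⟩, Utot_convex he, (Utot_compact he).isBounded⟩

lemma W_isBC (j : ℕ) : IsBC (W e j) := ⟨⟨0, zero_mem_W he j⟩, W_convex he j, (W_compact he j).isBounded⟩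

lemma Utot_eq (j : ℕ) : Utot e = U e j + W e j := by
  ext x
  constructor
  · rintro ⟨u, hu, rfl⟩
    refine ⟨u j, hu j (mem_univ _), ∑' i, (if i = j then 0 else u i), ⟨u, hu, rfl⟩, ?_⟩
    exact ((summable_of_mem he hu).tsum_eq_add_tsum_ite j).symm
  · rintro ⟨v, hv, _, ⟨u, hu, rfl⟩, rfl⟩
    have hw : Function.update u j v ∈ univ.pi (U e) := by
      intro i _
      by_cases h : i = j
      · subst h; simpa using hv
      · rw [Function.update_of_ne h]; exact hu i (mem_univ _)
    refine ⟨Function.update u j v, hw, ?_⟩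
    simp only
    rw [(summable_of_mem he hw).tsum_eq_add_tsum_ite j, Function.update_self]
    congr 1
    refine tsum_congr fun i => ?_
    by_cases h : i = j
    · simp [h]
    · simp [h]

lemma tsum_bound : ∑' j : ℕ, ((1 : ℝ) / 2) ^ (j + 2) ≤ 1 := by
  have h := summable_bound
  have h2 : ∑' j : ℕ, ((1 : ℝ) / 2) ^ (j + 2) = 1 / 2 := by
    have : (fun j : ℕ => ((1 : ℝ) / 2) ^ (j + 2)) = fun j => (1 / 2) ^ j * (1 / 4) := by
      funext j; rw [pow_add]; norm_num
    rw [this, tsum_mul_right, tsum_geometric_of_lt_one (by norm_num) (by norm_num)]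
    norm_num
  rw [h2]; norm_num

lemma W_norm {j : ℕ} {w : X} (hw : w ∈ W e j) : ‖w‖ ≤ 1 := by
  obtain ⟨u, hu, rfl⟩ := hw
  have h1 : Summable (fun i => ‖(if i = j then 0 else u i : X)‖) :=
    Summable.of_nonneg_of_le (fun _ => norm_nonneg _) (fun i => ite_bound he hu j i) summable_bound
  calc ‖∑' i, (if i = j then 0 else u i : X)‖ ≤ ∑' i, ‖(if i = j then 0 else u i : X)‖ :=
        norm_tsum_le_tsum_norm h1
    _ ≤ ∑' i : ℕ, ((1 : ℝ) / 2) ^ (i + 2) := h1.tsum_le_tsum (fun i => ite_bound he hu j i) summable_bound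
    _ ≤ 1 := tsum_bound he

lemma inner_W {j : ℕ} {w : X} (hw : w ∈ W e j) (τ : Idx j) : inner ℝ (e ⟨j, τ⟩) w = 0 := by
  obtain ⟨u, hu, rfl⟩ := hw
  have h := (innerSL ℝ (e ⟨j, τ⟩)).map_tsum (summable_ite he hu j)
  simp only [innerSL_apply_apply] at h
  rw [h]
  have : (fun i => inner ℝ (e ⟨j, τ⟩) (if i = j then 0 else u i : X)) = fun _ => (0 : ℝ) := by
    funext i
    split_ifs with hij
    · exact inner_zero_right _
    · exact inner_U_ne he (fun h => hij h.symm) (hu i (mem_univ _)) τ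
  rw [this, tsum_zero]

end blocks

section probability

/-- the block containing index `n` -/
def blk (n : ℕ) : ℕ := Nat.log 2 n

/-- the sample space -/
abbrev Om : Type := (n : ℕ) → Fin (K (blk n) + 1)

noncomputable def unif (m : ℕ) : Measure (Fin (m + 1)) := (PMF.uniformOfFintype (Fin (m + 1))).toMeasure

instance (m : ℕ) : IsProbabilityMeasure (unif m) := by unfold unif; infer_instance

/-- independent uniform choices -/
noncomputable def P : Measure Om := Measure.infinitePi fun n => unif (K (blk n))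

instance : IsProbabilityMeasure P := by unfold P; infer_instance

lemma unif_singleton (m : ℕ) (i : Fin (m + 1)) : (unif m).real {i} = ((m + 1 : ℕ) : ℝ)⁻¹ := by
  unfold unif
  rw [measureReal_def, PMF.toMeasure_apply_singleton _ _ (measurableSet_singleton i),
    PMF.uniformOfFintype_apply, Fintype.card_fin, ENNReal.toReal_inv, ENNReal.toReal_natCast]

variable {X : Type*} [NormedAddCommGroup X] [InnerProductSpace ℝ X]

/-- the random sets -/
noncomputable def Psi (e : (Σ j : ℕ, Idx j) → X) (n : ℕ) (ω : Om) : Set X :=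
  A e (blk n) (ω n : ℕ) + W e (blk n)

/-- the sampled word of block `j` -/
def word (ω : Om) (j : ℕ) : Idx j := fun k =>
  ⟨(ω (2 ^ j + k) : ℕ), by
    have h1 : blk (2 ^ j + (k : ℕ)) = j := by
      unfold blk
      have hk := k.2
      rw [Nat.log_eq_iff (Or.inr ⟨by norm_num, by positivity⟩)]
      constructor
      · exact Nat.le_add_right _ _
      · rw [pow_succ]; omega
    exact lt_of_lt_of_eq (ω (2 ^ j + (k : ℕ))).2 (congrArg (fun t => K t + 1) h1)⟩

lemma blk_eq {j n : ℕ} (h1 : 2 ^ j ≤ n) (h2 : n < 2 ^ (j + 1)) : blk n = j := by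
  unfold blk
  rw [Nat.log_eq_iff (Or.inr ⟨by norm_num, by have : 0 < 2 ^ j := by positivity
                                              omega⟩)]
  exact ⟨h1, h2⟩

variable {e : (Σ j : ℕ, Idx j) → X}

lemma e_mem_A (ω : Om) {j n : ℕ} (h1 : 2 ^ j ≤ n) (h2 : n < 2 ^ (j + 1)) :
    e ⟨j, word ω j⟩ ∈ A e (blk n) (ω n : ℕ) := by
  classical
  generalize hm : ((ω n : Fin (K (blk n) + 1)) : ℕ) = m
  rw [blk_eq h1 h2]
  refine ⟨Pi.single (word ω j) 1, ⟨fun σ => ?_, fun σ hσ => ?_, ?_⟩, ?_⟩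
  · by_cases h : σ = word ω j
    · subst h; simp
    · simp [Pi.single_eq_of_ne h]
  · refine Pi.single_eq_of_ne (fun h => ?_) _
    have hk : n - 2 ^ j < 2 ^ j := by rw [pow_succ] at h2; omega
    refine hσ ⟨n - 2 ^ j, hk⟩ ?_
    rw [h, ← hm]
    have : 2 ^ j + (n - 2 ^ j) = n := by omega
    change ((ω (2 ^ j + (n - 2 ^ j)) : Fin _) : ℕ) = (ω n : ℕ)
    rw [this]
  · simp
  · unfold comb
    rw [Finset.sum_eq_single (word ω j)]
    · simp
    · intro σ _ h
      rw [Pi.single_eq_of_ne h, zero_smul]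
    · intro h
      exact absurd (Finset.mem_univ _) h

variable [CompleteSpace X] (he : Orthonormal ℝ e)

include he

lemma Psi_isBC (n : ℕ) (ω : Om) : IsBC (Psi e n ω) := (A_isBC e _ _).add (W_isBC he _)

lemma Psi_norm (n : ℕ) (ω : Om) {a : X} (ha : a ∈ Psi e n ω) : ‖a‖ ≤ 2 := by
  obtain ⟨x, hx, w, hw, rfl⟩ := ha
  calc ‖x + w‖ ≤ ‖x‖ + ‖w‖ := norm_add_le _ _
    _ ≤ 1 + 1 := add_le_add (A_norm he hx) (W_norm he hw)
    _ = 2 := by norm_num

lemma zero_mem_Psi (n : ℕ) (ω : Om) : (0 : X) ∈ Psi e n ω :=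
  ⟨0, zero_mem_A e _ _, 0, zero_mem_W he _, by simp⟩

lemma e_mem_Psi (ω : Om) {j n : ℕ} (h1 : 2 ^ j ≤ n) (h2 : n < 2 ^ (j + 1)) :
    e ⟨j, word ω j⟩ ∈ Psi e n ω :=
  ⟨_, e_mem_A ω h1 h2, 0, zero_mem_W he _, by simp⟩

lemma Psi_random (n : ℕ) : IsRandomSet (Psi e n) := by
  refine ⟨Psi_isBC he n, ?_⟩
  let _ : MeasurableSpace (Z X) := borel (Z X)
  have h1 : (fun ω => radstrom (Psi e n ω)) =
      (fun i : Fin (K (blk n) + 1) => radstrom (A e (blk n) (i : ℕ) + W e (blk n))) ∘
        (fun ω : Om => ω n) := rfl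
  rw [h1]
  exact (measurable_of_countable _).comp (measurable_pi_apply n)

lemma Psi_indep : Independent P (Psi e) := by
  unfold Independent P
  let _ : MeasurableSpace (Z X) := borel (Z X)
  exact iIndepFun_infinitePi (m𝓧 := fun _ => borel (Z X))
    (P := fun n => unif (K (blk n)))
    (X := fun n (i : Fin (K (blk n) + 1)) => radstrom (A e (blk n) (i : ℕ) + W e (blk n)))
    (fun n => measurable_of_countable _)

lemma Psi_expectation (n : ℕ) : HasExpectation P (Psi e n) (Utot e) := by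
  set φ : Fin (K (blk n) + 1) → Z X := fun i => radstrom (A e (blk n) (i : ℕ) + W e (blk n)) with hφ
  have h1 : (fun ω => radstrom (Psi e n ω)) = φ ∘ (fun ω : Om => ω n) := rfl
  have hmp : MeasurePreserving (fun ω : Om => ω n) P (unif (K (blk n))) :=
    measurePreserving_eval_infinitePi (fun n => unif (K (blk n))) n
  have hInt : Integrable φ (unif (K (blk n))) := Integrable.of_finite
  constructor
  · rw [h1]
    exact (hmp.integrable_comp hInt.aestronglyMeasurable).2 hInt
  · have h2 : ∫ ω, radstrom (Psi e n ω) ∂P = ∫ i, φ i ∂(unif (K (blk n))) := by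
      rw [← hmp.map_eq, integral_map hmp.measurable.aemeasurable (by
        rw [hmp.map_eq]; exact hInt.aestronglyMeasurable)]
      rfl
    rw [h2, integral_fintype hInt]
    have h3 : ∀ i : Fin (K (blk n) + 1), φ i = radstrom (A e (blk n) (i : ℕ)) + radstrom (W e (blk n)) :=
      fun i => radstrom_add (A_isBC e _ _) (W_isBC he _)
    have hK : ((K (blk n) + 1 : ℕ) : ℝ) ≠ 0 := by positivity
    calc ∑ i, (unif (K (blk n))).real {i} • φ i
        = ∑ i : Fin (K (blk n) + 1), ((K (blk n) + 1 : ℕ) : ℝ)⁻¹ •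
            (radstrom (A e (blk n) (i : ℕ)) + radstrom (W e (blk n))) := by
          refine Finset.sum_congr rfl fun i _ => ?_
          rw [unif_singleton, h3]
      _ = ((K (blk n) + 1 : ℕ) : ℝ)⁻¹ • (∑ i : Fin (K (blk n) + 1), radstrom (A e (blk n) (i : ℕ))) +
            radstrom (W e (blk n)) := by
          rw [← Finset.smul_sum, Finset.sum_add_distrib, smul_add, Finset.sum_const,
            Finset.card_univ, Fintype.card_fin, ← Nat.cast_smul_eq_nsmul ℝ, smul_smul,
            inv_mul_cancel₀ hK, one_smul]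
      _ = radstrom (U e (blk n)) + radstrom (W e (blk n)) := by
          congr 1
          unfold U
          rw [radstrom_smul (isBC_sum _ fun i _ => A_isBC e _ _) (inv_nonneg.2 (Nat.cast_nonneg _)),
            radstrom_sum _ fun i _ => A_isBC e _ _, Finset.sum_range]
      _ = radstrom (Utot e) := by
          rw [← radstrom_add (U_isBC e _) (W_isBC he _), ← Utot_eq he]

lemma average_isBC (n : ℕ) (ω : Om) : IsBC (average (Psi e) n ω) :=
  (isBC_sum _ fun i _ => Psi_isBC he i ω).smul _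

/-- at time `2^(j+1)` the average contains a point at distance at least `1/4` from the mean -/
lemma dist_average (j : ℕ) (ω : Om) :
    1 / 4 ≤ hausdorffDist (average (Psi e) (2 ^ (j + 1)) ω) (Utot e) := by
  set x := e ⟨j, word ω j⟩ with hx
  have hxn : ‖x‖ = 1 := he.1 _
  -- the point `x / 2`
  have hmem : (1 / 2 : ℝ) • x ∈ average (Psi e) (2 ^ (j + 1)) ω := by
    refine ⟨∑ n ∈ Finset.range (2 ^ (j + 1)), (if 2 ^ j ≤ n then x else 0), ?_, ?_⟩
    · rw [Set.mem_finsetSum]
      refine ⟨fun n => if 2 ^ j ≤ n then x else 0, fun {n} hn => ?_, rfl⟩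
      change (if 2 ^ j ≤ n then x else 0) ∈ _
      split_ifs with h
      · exact e_mem_Psi he ω h (Finset.mem_range.1 hn)
      · exact zero_mem_Psi he n ω
    · simp only
      rw [← Finset.sum_filter, Finset.sum_const]
      have hcard : (Finset.filter (fun n => 2 ^ j ≤ n) (Finset.range (2 ^ (j + 1)))).card = 2 ^ j := by
        have : Finset.filter (fun n => 2 ^ j ≤ n) (Finset.range (2 ^ (j + 1))) =
            Finset.Ico (2 ^ j) (2 ^ (j + 1)) := by
          ext n; simp [and_comm]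
        rw [this, Nat.card_Ico, pow_succ]; omega
      rw [hcard, ← Nat.cast_smul_eq_nsmul ℝ, smul_smul]
      congr 1
      push_cast
      rw [pow_succ]
      field_simp
  have hbd := average_isBC he (2 ^ (j + 1)) ω
  have hU := Utot_isBC he
  refine le_trans ?_ (infDist_le_hausdorffDist_of_mem hmem
    (hausdorffEDist_ne_top_of_nonempty_of_bounded hbd.1 hU.1 hbd.3 hU.3))
  rw [le_infDist hU.1]
  intro y hy
  rw [Utot_eq he j] at hy
  obtain ⟨u, hu, w, hw, rfl⟩ := hy
  have h1 : inner ℝ x (u + w) ≤ 1 / 4 := by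
    rw [inner_add_right, inner_W he hw, add_zero]
    calc inner ℝ x u ≤ ‖x‖ * ‖u‖ := real_inner_le_norm _ _
      _ = ‖u‖ := by rw [hxn, one_mul]
      _ ≤ (1 / 2) ^ (j + 2) := U_norm he hu
      _ ≤ (1 / 2) ^ 2 := pow_le_pow_of_le_one (by norm_num) (by norm_num) (by omega)
      _ = 1 / 4 := by norm_num
  have h2 : inner ℝ x ((1 / 2 : ℝ) • x - (u + w)) ≤ dist ((1 / 2 : ℝ) • x) (u + w) := by
    rw [dist_eq_norm]
    calc inner ℝ x ((1 / 2 : ℝ) • x - (u + w)) ≤ ‖x‖ * ‖(1 / 2 : ℝ) • x - (u + w)‖ :=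
          real_inner_le_norm _ _
      _ = ‖(1 / 2 : ℝ) • x - (u + w)‖ := by rw [hxn, one_mul]
  have h3 : inner ℝ x ((1 / 2 : ℝ) • x - (u + w)) = 1 / 2 - inner ℝ x (u + w) := by
    rw [inner_sub_right, inner_smul_right, real_inner_self_eq_norm_sq, hxn]; norm_num
  linarith

lemma not_tendsto (ω : Om) :
    ¬ Tendsto (fun n => hausdorffDist (average (Psi e) n ω) (Utot e)) atTop (𝓝 0) := by
  intro h
  have h1 : Tendsto (fun j : ℕ => hausdorffDist (average (Psi e) (2 ^ (j + 1)) ω) (Utot e)) atTop (𝓝 0) := by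
    refine h.comp ?_
    exact (tendsto_pow_atTop_atTop_of_one_lt (by norm_num : 1 < 2)).comp (tendsto_add_atTop_nat 1)
  have h2 := ge_of_tendsto' h1 (fun j => dist_average he j ω)
  norm_num at h2

end probability

section main

/-- Hilbert spaces are B-convex -/
lemma isBConvex_hilbert (X : Type*) [NormedAddCommGroup X] [InnerProductSpace ℝ X] :
    IsBConvex X := by
  refine ⟨2, 1 / 4, by norm_num, ?_⟩
  rintro ⟨T, hT⟩
  set a : PiLp 1 (fun _ : Fin 2 => ℝ) := WithLp.toLp 1 ![1, 0] with ha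
  set b : PiLp 1 (fun _ : Fin 2 => ℝ) := WithLp.toLp 1 ![0, 1] with hb
  have hnorm : ∀ x : PiLp 1 (fun _ : Fin 2 => ℝ), ‖x‖ = |x 0| + |x 1| := by
    intro x
    rw [PiLp.norm_eq_of_L1]
    simp [Fin.sum_univ_two]
  have na : ‖a‖ = 1 := by rw [hnorm]; simp [ha]
  have nb : ‖b‖ = 1 := by rw [hnorm]; simp [hb]
  have nab : ‖a + b‖ = 2 := by rw [hnorm]; simp [ha, hb]; norm_num
  have nab' : ‖a - b‖ = 2 := by rw [hnorm]; simp [ha, hb]; norm_num
  have h1 := (hT (a + b)).1
  have h2 := (hT (a - b)).1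
  have h3 := (hT a).2
  have h4 := (hT b).2
  rw [nab, map_add] at h1
  rw [nab', map_sub] at h2
  rw [na] at h3
  rw [nb] at h4
  have h5 := parallelogram_law_with_norm ℝ (T a) (T b)
  have p1 := norm_nonneg (T a)
  have p2 := norm_nonneg (T b)
  nlinarith

lemma exists_orthonormal (X : Type*) [NormedAddCommGroup X] [InnerProductSpace ℝ X]
    [CompleteSpace X] (hX : ¬ FiniteDimensional ℝ X) :
    ∃ e : (Σ j : ℕ, Idx j) → X, Orthonormal ℝ e := by
  obtain ⟨w, b, hb⟩ := exists_hilbertBasis ℝ X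
  have hinf : Infinite w := by
    by_contra hfin
    rw [not_infinite_iff_finite] at hfin
    apply hX
    have : Fintype w := Fintype.ofFinite w
    have hspan : Submodule.span ℝ (range b) = ⊤ := by
      have h1 := b.dense_span
      have h2 : IsClosed ((Submodule.span ℝ (range b) : Submodule ℝ X) : Set X) := by
        have : FiniteDimensional ℝ (Submodule.span ℝ (range b)) :=
          FiniteDimensional.span_of_finite ℝ (finite_range b)
        exact Submodule.closed_of_finiteDimensional _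
      rw [← h2.submodule_topologicalClosure_eq]
      exact h1
    refine ⟨⟨(finite_range b).toFinset, ?_⟩⟩
    rw [Set.Finite.coe_toFinset]
    exact hspan
  obtain ⟨f, hf⟩ := Countable.exists_injective_nat (Σ j : ℕ, Idx j)
  refine ⟨fun i => b (Infinite.natEmbedding w (f i)), b.orthonormal.comp _ ?_⟩
  exact (Infinite.natEmbedding w).injective.comp hf

/-- **The answer to Q1 is negative.**  Every infinite-dimensional real Hilbert space `X` is B-convex
and carries a uniformly bounded independent sequence of random sets `Ψ n` in `BC(X)` with a common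
compact expectation `V` such that the averages `(1/n) ∑_{i < n} Ψ i ω` do not converge to `V` in
the Hausdorff distance, for any `ω`. -/
theorem result (X : Type*) [NormedAddCommGroup X] [InnerProductSpace ℝ X] [CompleteSpace X]
    (hX : ¬ FiniteDimensional ℝ X) :
    IsBConvex X ∧
    ∃ (Ω : Type) (_ : MeasurableSpace Ω) (μ : Measure Ω) (Ψ : ℕ → Ω → Set X) (V : Set X),
      IsProbabilityMeasure μ ∧ IsBC V ∧ IsCompact V ∧
      (∀ n, IsRandomSet (Ψ n)) ∧ (∃ C : ℝ, ∀ n ω, ∀ a ∈ Ψ n ω, ‖a‖ ≤ C) ∧ Independent μ Ψ ∧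
      (∀ n, HasExpectation μ (Ψ n) V) ∧
      ∀ ω, ¬ Tendsto (fun n => hausdorffDist (average Ψ n ω) V) atTop (𝓝 0) := by
  refine ⟨isBConvex_hilbert X, ?_⟩
  obtain ⟨e, he⟩ := exists_orthonormal X hX
  exact ⟨Om, inferInstance, P, Psi e, Utot e, inferInstance, Utot_isBC he, Utot_compact he,
    Psi_random he, ⟨2, fun n ω a ha => Psi_norm he n ω ha⟩, Psi_indep he, Psi_expectation he,
    not_tendsto he⟩

end main

end Pool.Agent.Results.MP_3b082f_pr.HilbertCounterexample
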